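import Mathlib
import Pool.Agent.H57.RW.RichDef

/-!
Second preimages of Sturmian words under `S` are `H`-rich and `R`-rich; third preimages are
`H`-rich but not `R`-rich.

The definitions `fac`, `lang`, `cpx` are in `Pool/Agent/H57/RW/Basic.lean`, `Sturmian` in
`Sturm.lean`, `pal` in `Pal.lean`, `S`, `E`, `epal` in `Pre.lean`, `RRich` in `RichDef.lean`.
-/

namespace Pool.Agent.Results.MP_3c89f4_co.SturmianPreimages

open Pool.Agent.H57.RW

/-- `x` is `H`-rich: its language is closed under reversal and under `E`, and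
`C(n+1) - C(n) + 4 = P(n+1) + P(n) + P^E(n+1) + P^E(n)` for all `n ≥ 1`. -/
def HRich (x : ℕ → ZMod 2) : Prop :=
  (∀ n, ∀ w ∈ lang x n, w.reverse ∈ lang x n ∧ E w ∈ lang x n) ∧
    ∀ n, 1 ≤ n → ((cpx x (n + 1) : ℤ) - cpx x n) + 4 =
      pal x (n + 1) + pal x n + epal x (n + 1) + epal x n

/-- the equality of complexities -/
def EQ (y : ℕ → ZMod 2) : Prop := ∀ k, cpx y (k + 1) + 2 = cpx y k + pal y k + pal y (k + 1)

lemma pal_zero (y : ℕ → ZMod 2) : pal y 0 = 1 := by
  unfold pal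
  rw [Set.ncard_eq_one]
  refine ⟨[], ?_⟩
  ext w
  constructor
  · rintro ⟨⟨i, rfl⟩, _⟩
    simp [fac]
  · rintro rfl
    exact ⟨⟨0, by simp [fac]⟩, rfl⟩

lemma RC_zero (y : ℕ → ZMod 2) : RC y 0 := fun _ => ⟨0, fun t ht => by omega⟩

lemma RC_all {x : ℕ → ZMod 2} (hcc : CC x) (h : ∀ n, RC (S x) n) : ∀ n, RC x n := by
  intro n
  rcases n with _ | n
  · exact RC_zero x
  · exact rc_pre hcc (h n)

lemma hrich_of {x : ℕ → ZMod 2} (hcc : CC x) (hRC : ∀ n, RC x n) (heq : EQ (S x)) : HRich x := by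
  refine ⟨?_, ?_⟩
  · intro n w hw
    refine ⟨reversal_mem (hRC n) hw, ?_⟩
    obtain ⟨i, rfl⟩ := hw
    obtain ⟨j, hj⟩ := hcc i n
    have h1 : (fac x i n).map (· + 1) = fac x j n := by
      rw [show (fac x i n).map (· + 1) = fac (fun k => x k + 1) i n by simp [fac], fac_eq_iff]
      intro t ht
      exact (hj t ht).symm
    unfold E
    rw [h1]
    exact reversal_mem (hRC n) (mem_lang_fac x j n)
  · intro n hn
    obtain ⟨k, rfl⟩ : ∃ k, n = k + 1 := ⟨n - 1, by omega⟩
    have h1 := cpx_pre hcc (k + 1)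
    have h2 := cpx_pre hcc k
    have h3 := pal_add_epal hcc (k + 1)
    have h4 := pal_add_epal hcc k
    have h5 := heq k
    have h6 : cpx x (k + 1 + 1) + 4 = cpx x (k + 1) +
        (pal x (k + 1 + 1) + pal x (k + 1) + epal x (k + 1 + 1) + epal x (k + 1)) := by
      omega
    have h7 : ((cpx x (k + 1 + 1) : ℤ)) + 4 = cpx x (k + 1) +
        (pal x (k + 1 + 1) + pal x (k + 1) + epal x (k + 1 + 1) + epal x (k + 1)) := by
      exact_mod_cast h6
    linarith

section one

variable {u y : ℕ → ZMod 2} (hu : Sturmian u) (hy : S y = u)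

include hu hy

lemma cpx_one (n : ℕ) : cpx y (n + 1) = 2 * (n + 1) := by
  rw [cpx_pre (cc_one hu hy), hy, hu n]

lemma pal_one (n : ℕ) : pal y (n + 1) = 2 := by
  rcases Nat.even_or_odd' n with ⟨m, rfl | rfl⟩
  · rw [pal_odd_pre (cc_one hu hy), hy, hu.pal_two_mul]
  · rw [show 2 * m + 1 + 1 = 2 * m + 2 by ring, pal_even_pre (cc_one hu hy), hy, hu.palMid_eq]

lemma eq_one : EQ y := by
  intro k
  rcases k with _ | k
  · rw [cpx_one hu hy, pal_one hu hy, cpx_zero, pal_zero]
  · rw [cpx_one hu hy, cpx_one hu hy, pal_one hu hy, pal_one hu hy]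
    omega

end one

section two

variable {u x : ℕ → ZMod 2} (hu : Sturmian u) (hx : S (S x) = u)

include hu hx

lemma cpx_two (n : ℕ) : cpx x (n + 2) = 4 * (n + 1) := by
  rw [show n + 2 = (n + 1) + 1 by ring, cpx_pre (cc_two hu hx), cpx_one hu hx]
  ring

lemma cpx_two_one : cpx x 1 = 2 := by
  rw [cpx_pre (cc_two hu hx), cpx_zero]

lemma pal_two_even (m : ℕ) : pal x (2 * m + 2) = 2 := by
  rw [pal_even_pre' (cc_two hu hx) (cc_one hu hx), pal_one hu hx]

lemma pal_two_odd (m : ℕ) : pal x (2 * m + 3) = 4 := by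
  rw [show 2 * m + 3 = 2 * (m + 1) + 1 by ring, pal_odd_pre (cc_two hu hx),
    show 2 * (m + 1) = (2 * m + 1) + 1 by ring, pal_one hu hx]

lemma pal_two_one : pal x 1 = 2 := by
  have := pal_odd_pre (cc_two hu hx) 0
  rw [Nat.mul_zero, Nat.zero_add, pal_zero] at this
  exact this

lemma eq_two : EQ x := by
  intro k
  rcases k with _ | _ | k
  · rw [cpx_two_one hu hx, cpx_zero, pal_zero, pal_two_one hu hx]
  · have h1 := cpx_two hu hx 0
    have h2 := pal_two_even hu hx 0
    rw [Nat.mul_zero, Nat.zero_add] at h2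
    rw [Nat.zero_add] at h1
    rw [Nat.zero_add, h1, cpx_two_one hu hx, pal_two_one hu hx, h2]
  · have h1 := cpx_two hu hx k
    have h2 := cpx_two hu hx (k + 1)
    rw [show k + 1 + 2 = k + 1 + 1 + 1 by ring] at h2
    rw [show k + 2 = k + 1 + 1 by ring] at h1
    rcases Nat.even_or_odd' k with ⟨m, rfl | rfl⟩
    · have h3 := pal_two_even hu hx m
      have h4 := pal_two_odd hu hx m
      rw [show 2 * m + 3 = 2 * m + 1 + 1 + 1 by ring] at h4
      rw [show 2 * m + 2 = 2 * m + 1 + 1 by ring] at h3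
      rw [h1, h2, h3, h4]
      ring
    · have h3 := pal_two_even hu hx (m + 1)
      have h4 := pal_two_odd hu hx m
      rw [show 2 * m + 3 = 2 * m + 1 + 1 + 1 by ring] at h4
      rw [show 2 * (m + 1) + 2 = 2 * m + 1 + 1 + 1 + 1 by ring] at h3
      rw [h1, h2, h3, h4]
      ring

end two

lemma word4 {u x : ℕ → ZMod 2} (hu : Sturmian u) (hx : S (S (S x)) = u) (a b c d : ZMod 2) :
    ∃ j, fac x j 4 = [a, b, c, d] := by
  obtain ⟨i, hi⟩ := hu.letter (a + b + c + d)
  obtain ⟨j, hj1, hj2⟩ := skew_three hu hx i 1 (a, b, c)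
  have hstep : x (j + 3) = x j + x (j + 1) + x (j + 2) + u j := by
    rw [← hx]
    unfold S
    have : ∀ a b c d : ZMod 2,
        d = a + b + c + (a + b + (b + c) + (b + c + (c + d))) := by decide
    exact this _ _ _ _
  have h1 : x j = a := congrArg Prod.fst hj2
  have h2 : x (j + 1) = b := congrArg (fun p => p.2.1) hj2
  have h3 : x (j + 2) = c := congrArg (fun p => p.2.2) hj2
  have h4 : u j = a + b + c + d := by
    have := hj1 0 (by omega)
    simp only [add_zero] at this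
    rw [← this, hi]
  have h5 : x (j + 3) = d := by
    rw [hstep, h1, h2, h3, h4]
    have : ∀ a b c d : ZMod 2, a + b + c + (a + b + c + d) = d := by decide
    exact this _ _ _ _
  refine ⟨j, ?_⟩
  simp [fac, List.range_succ, h1, h2, h3, h5]

/-- For every Sturmian word `u`: every `S^2`-preimage of `u` is `H`-rich and `R`-rich, and every
`S^3`-preimage of `u` is `H`-rich but not `R`-rich. -/
theorem result : ∀ u : ℕ → ZMod 2, Sturmian u →
    (∀ x : ℕ → ZMod 2, S^[2] x = u → HRich x ∧ RRich x) ∧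
    (∀ x : ℕ → ZMod 2, S^[3] x = u → HRich x ∧ ¬ RRich x) := by
  intro u hu
  constructor
  · intro x hx
    have hx' : S (S x) = u := hx
    have hRC1 : ∀ n, RC (S x) n := RC_all (cc_one hu hx') (by rw [hx']; exact hu.reversal)
    have hRC2 : ∀ n, RC x n := RC_all (cc_two hu hx') hRC1
    exact ⟨hrich_of (cc_two hu hx') hRC2 (eq_one hu hx'),
      rich_of_eq hRC2 (fun n _ => eq_two hu hx' n)⟩
  · intro x hx
    have hx' : S (S (S x)) = u := hx
    have hRC1 : ∀ n, RC (S (S x)) n := RC_all (cc_one hu hx') (by rw [hx']; exact hu.reversal)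
    have hRC2 : ∀ n, RC (S x) n := RC_all (cc_two hu hx') hRC1
    have hRC3 : ∀ n, RC x n := RC_all (cc_three hu hx') hRC2
    refine ⟨hrich_of (cc_three hu hx') hRC3 (eq_two hu hx'), ?_⟩
    obtain ⟨a, ha⟩ := word4 hu hx' 0 0 1 0
    obtain ⟨b, hb⟩ := word4 hu hx' 0 1 0 1
    obtain ⟨c, hc⟩ := word4 hu hx' 1 0 1 1
    obtain ⟨d, hd⟩ := word4 hu hx' 0 0 1 1
    exact not_rich ha hb hc hd

end Pool.Agent.Results.MP_3c89f4_co.SturmianPreimages
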